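import Pool.Agent.N393.C13.All

/-!
# The oriented cycle double cover conjecture for graphs with circumference at most 13 (MP_781dd6_co)

Every finite simple graph without cut edges and without circuits with more than thirteen vertices
has an orientable cycle double cover with five classes: its associated digraph decomposes into
directed cycles of length at least three, which can be divided into five families such that no
family uses an edge twice.

Proof.  By the theorem of `Pool.Agent.N393.C13` (handed in for MP_e6539c_co) a multigraph of this
kind has a nowhere-zero 4-flow or a Petersen quotient.  Let `H` be obtained from the graph by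
contraction of disjoint connected vertex sets, without such a cover and with as few edges as
possible.  If `H` has a Petersen quotient then its classes are single vertices: double covers of two
sides of a 3-edge-cut fit together after a permutation of the five classes (an orientable double
cover with five classes is a flow with values `e_i - e_j`, and three such vectors with sum zero are a
triangle).  The Petersen graph has such a cover (starting library, `R140/PK/Or`).
-/

set_option autoImplicit false

namespace Pool.Agent.Results.MP_781dd6_co.CircumferenceThirteen
open Finset

open scoped Classical in
/-- how often the closed walks of the list `C` traverse the arc from `u` to `v` -/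
noncomputable def uses {V : Type} {G : SimpleGraph V} (C : List (Σ v : V, G.Walk v v)) (u v : V) : ℕ :=
  (C.map (fun c => (c.2.darts.filter (fun d => decide (d.toProd = (u, v)))).length)).sum

/-- the graph has a circuit with `n` vertices: there are `n` different vertices `v 0, ..., v (n - 1)`
such that `v i` and `v (i + 1)` are adjacent for each `i`, where the indices are read modulo `n` -/
def HasCircuit {V : Type} (G : SimpleGraph V) (n : ℕ) : Prop :=
  ∃ v : ℕ → V, (∀ i < n, ∀ j < n, v i = v j → i = j) ∧ ∀ i < n, G.Adj (v i) (v ((i + 1) % n))

/-- A simple graph without cut edges and without circuits with more than thirteen vertices has an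
orientable cycle double cover with five classes. -/
theorem result (V : Type) [Finite V] (G : SimpleGraph V)
    (hb : ∀ u v, G.Adj u v → (G.deleteEdges {s(u, v)}).Reachable u v)
    (hc : ∀ n, 13 < n → ¬ HasCircuit G n) :
    ∃ C : Fin 5 → List (Σ v : V, G.Walk v v), (∀ i, ∀ c ∈ C i, c.2.IsCycle) ∧
      (∀ i u v, uses (C i) u v + uses (C i) v u ≤ 1) ∧
      ∀ u v, G.Adj u v → ∑ i, uses (C i) u v = 1 := by
  classical
  have hV : Fintype V := Fintype.ofFinite V
  obtain ⟨E, _, _, K, hK, hF⟩ := Pool.Agent.N393.C13.simple13
    Pool.Agent.N393.C13.leaves G hb (fun n h v hv => hc n h ⟨v, hv⟩)
  obtain ⟨C, h1, h2, h3⟩ := Pool.Agent.H23.PS.cycles_of_classes G K hK hF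
  exact ⟨C, h1, h2, h3⟩

end Pool.Agent.Results.MP_781dd6_co.CircumferenceThirteen
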