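import Pool.Agent.N410.DC.Oc

/-!
# Orientable five cycle double covers: eighteen disjoint odd cuts (MP_781dd6_co)

The oriented cycle double cover conjecture, with five classes, holds for every simple graph without
cut edges with `n` vertices and minimum degree at least `max (16, (n - 17) / 18)`, and for every
bridgeless multigraph in which any 18 pairwise disjoint sets of vertices with odd boundaries have at
least 67 boundary edges in total (by parity: at least 68); for example if there are no 12 disjoint
sets of vertices with exactly three boundary edges each.  More generally the condition is only needed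
for sets without boundary edges in the union `F` of a chain of circuits or ears with at most four new
edges and of doubly connected pieces; this contains the theorem `SixteenOddPieces` of the starting
library.

Proof.  After the contraction of `F` let `H` be a quotient without nowhere-zero 4-flow and without
Petersen quotient such that all proper quotients of `H` have a flow.  At least 18 vertices of `H` have
odd degree (starting library, `TH362/TF`), and no vertex has degree one or two.  A set of `k ≥ 2`
vertices of `H` spans at most `2 k - 3` edges: otherwise a minimal dense set has an orientation in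
which exactly two edges leave each vertex apart from a root (Hall), hence two disjoint connectors
(Edmonds' branching theorem), and a flow of the quotient by this set can be lifted.  So the sum of
`4 - d(y)` over the vertices `y` of `H` which are not isolated is at least six, and this gives 18
vertices of odd degree with at most 66 edges; their classes are 18 disjoint sets of `G`.  So `G` has a
nowhere-zero 4-flow, or ten classes of vertices form a Petersen graph; the condition is inherited by
quotients, and the covers of the ten smaller graphs in which the vertices outside of one class are
identified are glued with the theorem `R890/FF/Sgn.lean` of helper890.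
-/

set_option autoImplicit false

namespace Pool.Agent.Results.MP_781dd6_co.EighteenOddCuts

open Finset Pool.Agent.H160R2.HF Pool.Agent.H23.PS

/-- The edges with exactly one end in `X`. -/
def boundary {V E : Type} [DecidableEq V] [Fintype E] (K : OrGraph V E) (X : Finset V) : Finset E :=
  univ.filter (fun e => ¬ (K.t e ∈ X ↔ K.h e ∈ X))

/-- The union of the sets `C j` with `j < i`. -/
def earlier {E : Type} [DecidableEq E] {m : ℕ} (C : Fin m → Finset E) (i : Fin m) : Finset E :=
  (univ.filter (fun j => j < i)).biUnion C

/-- `H` can be added to the chain after `F`: either (short) `H` has at most four edges outside `F`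
and no bridge modulo `F`: no set `Y` of vertices without boundary edges in `F` has exactly one
boundary edge in `H`; or (doubly connected) `H` contains two disjoint sets each of which connects,
modulo `F`, whatever `H` connects: every set `Y` of vertices without boundary edges in `F` and with
a boundary edge in `H` has boundary edges in both sets. -/
def Adds {V E : Type} [DecidableEq V] [Fintype E] [DecidableEq E] (K : OrGraph V E)
    (F H : Finset E) : Prop :=
  ((H \ F).card ≤ 4 ∧ ∀ Y : Finset V, Disjoint (boundary K Y) F →
    (boundary K Y ∩ H).card ≠ 1) ∨
  ∃ T₁ T₂ : Finset E, T₁ ⊆ H ∧ T₂ ⊆ H ∧ Disjoint T₁ T₂ ∧ ∀ Y : Finset V,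
    Disjoint (boundary K Y) F → ¬ Disjoint (boundary K Y) H →
      ¬ Disjoint (boundary K Y) T₁ ∧ ¬ Disjoint (boundary K Y) T₂

/-- For some chain of sets of edges (for instance the empty chain) any 18 pairwise disjoint sets of
vertices with odd boundaries which contain no edge of the chain have at least 67 boundary edges in
total. -/
def LargeOddCuts {V E : Type} [DecidableEq V] [Fintype E] [DecidableEq E] (K : OrGraph V E) :
    Prop :=
  ∃ (m : ℕ) (C : Fin m → Finset E), (∀ i, Adds K (earlier C i) (C i)) ∧
    ∀ X : Fin 18 → Finset V, (∀ i j, i ≠ j → Disjoint (X i) (X j)) →
      (∀ i, Disjoint (boundary K (X i)) (univ.biUnion C)) → (∀ i, Odd (boundary K (X i)).card) →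
      67 ≤ ∑ i, (boundary K (X i)).card

open scoped Classical in
/-- how often the closed walks of the list `C` traverse the arc from `u` to `v` -/
noncomputable def uses {V : Type} {S : SimpleGraph V} (C : List (Σ v : V, S.Walk v v)) (u v : V) :
    ℕ :=
  (C.map (fun c => (c.2.darts.filter (fun d => decide (d.toProd = (u, v)))).length)).sum

/-- The associated digraph of `S` decomposes into directed cycles of length at least three, in five
families none of which uses an edge twice. -/
def FiveFamilies {V : Type} (S : SimpleGraph V) : Prop :=
  ∃ C : Fin 5 → List (Σ v : V, S.Walk v v), (∀ i, ∀ c ∈ C i, c.2.IsCycle) ∧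
    (∀ i u v, uses (C i) u v + uses (C i) v u ≤ 1) ∧
    ∀ u v, S.Adj u v → ∑ i, uses (C i) u v = 1

/-- (1) Every bridgeless multigraph `K` (with an orientation) with large odd cuts has an orientable
cycle double cover with five classes, and if it is an orientation of a simple graph `S`, the
associated digraph of `S` decomposes into directed cycles of length at least three, in five families
none of which uses an edge twice.

(2) Dense graphs: this decomposition exists for every simple graph without cut edges in which all
degrees are at least `k` and the number of vertices is at most `18 k + 17` (and `k ≥ 16`), or at most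
`17 k + 16` (and `k ≥ 10`), or at most `12 k + 11` (and `k ≥ 4`). -/
theorem result :
    (∀ (V E : Type) [Fintype V] [DecidableEq V] [Fintype E] [DecidableEq E] (K : OrGraph V E),
      K.Bridgeless → LargeOddCuts K →
      FiveClasses K ∧ ∀ S : SimpleGraph V, IsOrientation S K → FiveFamilies S) ∧
    ∀ (V : Type) [Fintype V] [DecidableEq V] (S : SimpleGraph V) [DecidableRel S.Adj],
      (∀ u v : V, S.Adj u v → (S.deleteEdges {s(u, v)}).Reachable u v) →
      ∀ k : ℕ, (∀ v, k ≤ S.degree v) →
      ((16 ≤ k ∧ Fintype.card V < 18 * (k + 1)) ∨ (10 ≤ k ∧ Fintype.card V < 17 * (k + 1)) ∨
        (4 ≤ k ∧ Fintype.card V < 12 * (k + 1))) → FiveFamilies S := by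
  refine ⟨?_, ?_⟩
  · intro V E _ _ _ _ K hB ⟨m, C, hC, hO⟩
    have h1 : FiveClasses K := N410.DC.oc_cl K hB (N410.DC.Cl.of_steps hC hO)
    exact ⟨h1, fun S hS => cycles_of_classes S K hS h1⟩
  · intro V _ _ S _ h k hk hn
    have hB := R890.FF.orient_bridgeless S h
    have h1 : FiveClasses (R890.FF.orient S) := N410.DC.oc_cl _ hB
      (N410.DC.Cl.of_nbrs (R890.FF.n1_of_bridgeless _ hB) (N410.DC.nbrs_orient S hk) hn)
    exact cycles_of_classes S _ (R890.FF.orient_is S) h1

end Pool.Agent.Results.MP_781dd6_co.EighteenOddCuts
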