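import Pool.Agent.N175.OC.Simple

/-!
# Oriented cycle covers of every multiplicity `h ≥ 2` (MP_781dd6_co)

The oriented cycle double cover conjecture asks for directed cycles (of length at least three) which
traverse every edge of a given bridgeless graph exactly once in each direction.  We show that for
every `h ≥ 2` every bridgeless graph has a family of directed cycles which traverses every edge
exactly `h` times in each direction; `h = 1` is the conjecture.  More generally the edge `e` can be
traversed exactly `p e` times in each direction, for every weighting `p` (no parity condition) which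
is constant on the edge cuts with two edges and whose values differ by a factor of at most about
`8 / 7`.

Proof.  By the theorem of the starting library (`H126R2/CDC`) every bridgeless graph has a double
cover by eight even sets.  (Two) Traversing each of them in both directions gives multiplicity two.
(Three) Regard the eight colours as points of the affine plane with nine points.  A parallel class of
lines divides the colours into three parts, and so it gives two even sets (and their sum); two even
sets have four directed even subgraphs which traverse every edge of their union once in each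
direction and no other edge.  An edge with the colours `a`, `b` is in the union unless `a` and `b`
are on a line of the class.  This happens for exactly one of the four parallel classes, so the sum
over the four classes traverses every edge exactly three times in each direction.  Sums of these two
give every `h ≥ 2`.  For weights one removes parts of the classes of a colouring with eight colours
(helper411) from the layers of multiplicity two and three.
-/

set_option autoImplicit false

open Finset

namespace Pool.Agent.Results.MP_781dd6_co.EveryMultiplicity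

open Pool.Agent.H160R2.HF Pool.Agent.N175.OC
open Pool.Agent.TH505.OCDC (tot ind ind_pos ind_neg tot_nil tot_append)
open Pool.Agent.Helper879.ECD (F2 cn)
open Pool.Agent.H126R2.NC (TC)

/-- The edges of the multigraph `K` with exactly one end in `X`. -/
def boundary {V E : Type} [DecidableEq V] [Fintype E] (K : OrGraph V E) (X : Finset V) :
    Finset E :=
  Finset.univ.filter (fun e => ¬ (K.t e ∈ X ↔ K.h e ∈ X))

/-- `Circulations K n p`: there are `n` circulations on `K` with values in `{-1, 0, 1}` such that
every edge `e` has the value `1` in exactly `p e` of them and the value `-1` in exactly `p e`. -/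
def Circulations {V E : Type} [Fintype V] [DecidableEq V] [Fintype E] (K : OrGraph V E) (n : ℕ)
    (p : E → ℕ) : Prop :=
  ∃ g : Fin n → E → ℤ, (∀ i, K.IsFlow (g i)) ∧ (∀ i e, g i e = 0 ∨ g i e = 1 ∨ g i e = -1) ∧
    ∀ e, (Finset.univ.filter (fun i => g i e = 1)).card = p e ∧
      (Finset.univ.filter (fun i => g i e = -1)).card = p e

/-- No edge of the simple graph `S` is a cut edge. -/
def NoCutEdge {V : Type} (S : SimpleGraph V) : Prop :=
  ∀ u v : V, S.Adj u v → (S.deleteEdges {s(u, v)}).Reachable u v

open scoped Classical in
/-- how often the closed walks of the list `C` traverse the arc from `u` to `v` -/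
noncomputable def uses {V : Type} {S : SimpleGraph V} (C : List (Σ v : V, S.Walk v v)) (u v : V) :
    ℕ :=
  (C.map (fun c => (c.2.darts.filter (fun d => decide (d.toProd = (u, v)))).length)).sum

/-- The edges of the simple graph `S` with exactly one end in `X`. -/
def leaving {V : Type} (S : SimpleGraph V) (X : Set V) : Set (Sym2 V) :=
  {e | ∃ u v, S.Adj u v ∧ u ∈ X ∧ v ∉ X ∧ e = s(u, v)}

theorem cn_boundary {V E : Type} [DecidableEq V] [Fintype E] (K : OrGraph V E) (X : Finset V) :
    cn K.t K.h univ X = (boundary K X).card := rfl

theorem circ_of {V E : Type} [Fintype V] [DecidableEq V] [Fintype E] [DecidableEq E]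
    {K : OrGraph V E} {n : ℕ} {p : E → ℕ} (h : CovI K (Fin n) p) : Circulations K n p := by
  obtain ⟨g, h1, h2, h3⟩ := h
  refine ⟨g, h1, h2, fun e => ?_⟩
  rw [Finset.card_filter, Finset.card_filter]
  exact h3 e

theorem tc_boundary {V E : Type} [Fintype V] [DecidableEq V] [Fintype E] [DecidableEq E]
    (K : OrGraph V E) (e f : E) (h : TC K.t K.h e f) :
    e = f ∨ ∃ X : Finset V, boundary K X = {e, f} := by
  by_cases hef : e = f
  · exact Or.inl hef
  right
  obtain ⟨z, hz⟩ := h
  refine ⟨univ.filter (fun v => z v = 1), ?_⟩
  have hF : ∀ x y : F2, x + y = 1 ↔ ¬ (x = 1 ↔ y = 1) := by decide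
  ext g
  unfold boundary
  rw [mem_filter, mem_filter, mem_filter, mem_insert, mem_singleton]
  simp only [mem_univ, true_and]
  rw [← hF, hz g]
  by_cases h1 : g = e
  · have : g ≠ f := fun h3 => hef (h1.symm.trans h3)
    rw [if_pos h1, if_neg this]
    simp [h1]
  · by_cases h3 : g = f
    · rw [if_neg h1, if_pos h3]
      simp [h3]
    · rw [if_neg h1, if_neg h3]
      simp [h1, h3]

theorem tot_flatten {V : Type} {S : SimpleGraph V} (u v : V) :
    ∀ L : List (List (Σ v : V, S.Walk v v)), tot L.flatten u v = (L.map (fun C => tot C u v)).sum
  | [] => rfl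
  | C :: L => by rw [List.flatten_cons, tot_append, tot_flatten u v L, List.map_cons, List.sum_cons]

/-- from circulations to lists of cycles -/
theorem to_lists {V : Type} [Fintype V] [DecidableEq V] (S : SimpleGraph V) [Fintype S.edgeSet]
    [DecidableEq S.edgeSet] {n : ℕ} {p : S.edgeSet → ℕ} (h : CovI (orient S) (Fin n) p) :
    ∃ C : Fin n → List (Σ v : V, S.Walk v v), (∀ i, ∀ c ∈ C i, c.2.IsCycle) ∧
      (∀ i u v, tot (C i) u v + tot (C i) v u ≤ 1) ∧
      ∀ u v (huv : S.Adj u v), ∑ i, tot (C i) u v = p ⟨s(u, v), huv⟩ := by
  obtain ⟨g, h1, h2, h3⟩ := h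
  choose C hC1 hC2 hC3 using fun i => lists S (orient S) (orient_adj S) (orient_uniq S) (g i)
    (h1 i) (h2 i)
  have hi : ∀ (x : ℤ) (c : ℤ), ind (x = c) = if x = c then 1 else 0 := by
    intro x c
    by_cases h : x = c
    · rw [ind_pos h, if_pos h]
    · rw [ind_neg h, if_neg h]
  refine ⟨C, hC1, ?_, ?_⟩
  · intro i u v
    by_cases huv : S.Adj u v
    · obtain ⟨e, he, -⟩ := orient_uniq S u v huv
      have h4 : ind (g i e = 1) + ind (g i e = -1) ≤ 1 := by
        rw [hi, hi]
        rcases h2 i e with h | h | h <;> rw [h] <;> norm_num
      rcases he with he | he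
      · rw [(hC3 i u v e).1 he, (hC3 i v u e).2 ⟨he.2, he.1⟩]
        exact h4
      · rw [(hC3 i u v e).2 he, (hC3 i v u e).1 ⟨he.2, he.1⟩, add_comm]
        exact h4
    · rw [hC2 i u v huv, hC2 i v u (fun h => huv h.symm)]
      norm_num
  · intro u v huv
    obtain ⟨e, he, hu⟩ := orient_uniq S u v huv
    have hee : e = ⟨s(u, v), huv⟩ := by
      apply Subtype.ext
      show e.1 = s(u, v)
      rw [← orient_mk S e]
      rcases he with ⟨h4, h5⟩ | ⟨h4, h5⟩
      · rw [h4, h5]
      · rw [h4, h5, Sym2.eq_swap]
    rw [← hee]
    rcases he with he | he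
    · rw [← (h3 e).1]
      exact Finset.sum_congr rfl fun i _ => by rw [(hC3 i u v e).1 he, hi]
    · rw [← (h3 e).2]
      exact Finset.sum_congr rfl fun i _ => by rw [(hC3 i u v e).2 he, hi]

/-- (1) For every `h ≥ 2` and every finite simple graph `S` without cut edge there are `8 h` families
of directed cycles of length at least three, such that no family traverses an edge twice, and every
edge is traversed exactly `h` times in each of its two directions.

(2) If `S` is a finite simple graph without cut edge and `p` a weighting of its edges by natural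
numbers which has equal values on `e` and `f` whenever `{e, f}` is an edge cut, and
`7 p e + 48 ≤ 8 p f` for any two edges, then there is a list of directed cycles of length at least
three which traverses every edge `e` exactly `p e` times in each of its two directions.

(3), (4) The same for finite multigraphs `K` (loops and parallel edges allowed), with directed even
subgraphs, i.e. circulations with values in `{-1, 0, 1}`. -/
theorem result :
    (∀ (V : Type) [Fintype V] (S : SimpleGraph V), NoCutEdge S → ∀ h : ℕ, 2 ≤ h →
      ∃ C : Fin (8 * h) → List (Σ v : V, S.Walk v v), (∀ i, ∀ c ∈ C i, c.2.IsCycle) ∧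
        (∀ i u v, uses (C i) u v + uses (C i) v u ≤ 1) ∧
        ∀ u v, S.Adj u v → ∑ i, uses (C i) u v = h) ∧
    (∀ (V : Type) [Fintype V] (S : SimpleGraph V), NoCutEdge S → ∀ p : Sym2 V → ℕ,
      (∀ (X : Set V) (e f : Sym2 V), leaving S X = {e, f} → p e = p f) →
      (∀ e ∈ S.edgeSet, ∀ f ∈ S.edgeSet, 7 * p e + 48 ≤ 8 * p f) →
      ∃ C : List (Σ v : V, S.Walk v v), (∀ c ∈ C, c.2.IsCycle) ∧
        ∀ u v, S.Adj u v → uses C u v = p s(u, v)) ∧
    (∀ (V E : Type) [Fintype V] [DecidableEq V] [Fintype E] [DecidableEq E] (K : OrGraph V E),
      (∀ X : Finset V, (boundary K X).card ≠ 1) → ∀ h : ℕ, 2 ≤ h →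
      Circulations K (8 * h) (fun _ => h)) ∧
    (∀ (V E : Type) [Fintype V] [DecidableEq V] [Fintype E] [DecidableEq E] (K : OrGraph V E),
      (∀ X : Finset V, (boundary K X).card ≠ 1) → ∀ p : E → ℕ,
      (∀ (X : Finset V) (e f : E), boundary K X = {e, f} → p e = p f) →
      (∀ e f, 7 * p e + 48 ≤ 8 * p f) → ∃ n, Circulations K n p) := by
  refine ⟨?_, ?_, ?_, ?_⟩
  · intro V _ S hb h hh
    classical
    have : Fintype S.edgeSet := Fintype.ofFinite _
    obtain ⟨C, h1, h2, h3⟩ := to_lists S (covN_all (orient S) (orient_bridgeless S hb) h hh)
    exact ⟨C, h1, h2, h3⟩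
  · intro V _ S hb p htc hr
    classical
    have : Fintype S.edgeSet := Fintype.ofFinite _
    obtain ⟨n, h⟩ := near (orient S) (orient_bridgeless S hb) (fun e => p e.1)
      (fun e f hef => by
        rcases tc_leaving S e f hef with rfl | ⟨X, hX⟩
        · rfl
        · exact htc X _ _ hX)
      (fun e f => hr _ e.2 _ f.2)
    obtain ⟨C, h1, h2, h3⟩ := to_lists S h
    refine ⟨(List.ofFn C).flatten, ?_, ?_⟩
    · intro c hc
      rw [List.mem_flatten] at hc
      obtain ⟨L, hL, hc⟩ := hc
      rw [List.mem_ofFn] at hL
      obtain ⟨i, rfl⟩ := hL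
      exact h1 i c hc
    · intro u v huv
      show tot (List.ofFn C).flatten u v = _
      rw [tot_flatten, List.map_ofFn, List.sum_ofFn]
      exact h3 u v huv
  · intro V E _ _ _ _ K hb h hh
    exact circ_of (covN_all K hb h hh)
  · intro V E _ _ _ _ K hb p htc hr
    obtain ⟨n, h⟩ := near K hb p (fun e f hef => by
        rcases tc_boundary K e f hef with rfl | ⟨X, hX⟩
        · rfl
        · exact htc X _ _ hX) hr
    exact ⟨n, circ_of h⟩

end Pool.Agent.Results.MP_781dd6_co.EveryMultiplicity
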