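import Pool.Agent.N410.DC.Part

/-!
# Orientable five cycle double covers: partitions with 18 odd classes (MP_781dd6_co)

Let `G` be a finite multigraph without cut edges such that every partition of the vertex set into
`k` classes, at least 18 of which have an odd number of boundary edges, has at least `2 (k - 1)`
crossing edges. Then `G` has an orientable cycle double cover with five classes.

If all partitions have this property then `G` has two disjoint spanning trees (Tutte, Nash-Williams)
and a nowhere-zero 4-flow (Jaeger). Here the condition is only needed for partitions with at least
18 odd classes: graphs with at most 16 vertices of odd degree, simple graphs with `n ≥ 21` vertices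
and at least `(n - 17 choose 2) + 34` edges, and many others are included. More generally it is only
needed for partitions without crossing edges in the union `F` of a chain of circuits or ears with at
most four new edges and of doubly connected pieces.

Proof. After the contraction of `F` let `H` be a quotient without nowhere-zero 4-flow and without
Petersen quotient such that all proper quotients of `H` have a flow. At least 18 vertices of `H`
have odd degree (starting library, `TH362/TF`). A set of `k ≥ 2` vertices of `H` spans at most `2 k
- 3` edges (`N410/DC/Sparse.lean`): otherwise a minimal dense set has an orientation in which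
exactly two edges leave each vertex apart from a root (Hall), hence two disjoint connectors
(Edmonds' branching theorem), and a flow of the quotient by this set can be lifted. So the classes
of the vertices of `H` form a partition with too few crossing edges.

So `G` has a nowhere-zero 4-flow, or ten classes of vertices form a Petersen graph; the condition is
inherited by quotients, and the covers of the ten smaller graphs in which the vertices outside of
one class are identified are glued with the theorem `R890/FF/Sgn.lean` of helper890.
-/

set_option autoImplicit false

namespace Pool.Agent.Results.MP_781dd6_co.PartitionsEighteen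

open Finset Pool.Agent.H160R2.HF Pool.Agent.H23.PS

/-- The edges with exactly one end in `X`. -/
def boundary {V E : Type} [DecidableEq V] [Fintype E] (K : OrGraph V E) (X : Finset V) : Finset E :=
  univ.filter (fun e => ¬ (K.t e ∈ X ↔ K.h e ∈ X))

/-- The union of the sets `C j` with `j < i`. -/
def earlier {E : Type} [DecidableEq E] {m : ℕ} (C : Fin m → Finset E) (i : Fin m) : Finset E :=
  (univ.filter (fun j => j < i)).biUnion C

/-- `H` can be added to the chain after `F`: either (short) `H` has at most four edges outside `F`
and no bridge modulo `F`: no set `Y` of vertices without boundary edges in `F` has exactly one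
boundary edge in `H`; or (doubly connected) `H` contains two disjoint sets each of which connects,
modulo `F`, whatever `H` connects: every set `Y` of vertices without boundary edges in `F` and with
a boundary edge in `H` has boundary edges in both sets. -/
def Adds {V E : Type} [DecidableEq V] [Fintype E] [DecidableEq E] (K : OrGraph V E)
    (F H : Finset E) : Prop :=
  ((H \ F).card ≤ 4 ∧ ∀ Y : Finset V, Disjoint (boundary K Y) F →
    (boundary K Y ∩ H).card ≠ 1) ∨
  ∃ T₁ T₂ : Finset E, T₁ ⊆ H ∧ T₂ ⊆ H ∧ Disjoint T₁ T₂ ∧ ∀ Y : Finset V,
    Disjoint (boundary K Y) F → ¬ Disjoint (boundary K Y) H →
      ¬ Disjoint (boundary K Y) T₁ ∧ ¬ Disjoint (boundary K Y) T₂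

/-- The `i`-th class of the partition `p`. -/
def part {V : Type} [Fintype V] {k : ℕ} (p : V → Fin k) (i : Fin k) : Finset V :=
  univ.filter (fun v => p v = i)

/-- For some chain of sets of edges (for instance the empty chain) every partition of the vertex set
into `k` classes without crossing edges in the chain, at least 18 of which have an odd number of
boundary edges, has at least `2 (k - 1)` crossing edges. -/
def ManyCrossing {V E : Type} [Fintype V] [DecidableEq V] [Fintype E] [DecidableEq E]
    (K : OrGraph V E) : Prop :=
  ∃ (m : ℕ) (C : Fin m → Finset E), (∀ i, Adds K (earlier C i) (C i)) ∧
    ∀ (k : ℕ) (p : V → Fin k), Function.Surjective p →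
      (∀ e ∈ univ.biUnion C, p (K.t e) = p (K.h e)) →
      18 ≤ (univ.filter (fun i => Odd (boundary K (part p i)).card)).card →
      2 * k ≤ (univ.filter (fun e => p (K.t e) ≠ p (K.h e))).card + 2

open scoped Classical in
/-- how often the closed walks of the list `C` traverse the arc from `u` to `v` -/
noncomputable def uses {V : Type} {S : SimpleGraph V} (C : List (Σ v : V, S.Walk v v)) (u v : V) :
    ℕ :=
  (C.map (fun c => (c.2.darts.filter (fun d => decide (d.toProd = (u, v)))).length)).sum

/-- The associated digraph of `S` decomposes into directed cycles of length at least three, in five
families none of which uses an edge twice. -/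
def FiveFamilies {V : Type} (S : SimpleGraph V) : Prop :=
  ∃ C : Fin 5 → List (Σ v : V, S.Walk v v), (∀ i, ∀ c ∈ C i, c.2.IsCycle) ∧
    (∀ i u v, uses (C i) u v + uses (C i) v u ≤ 1) ∧
    ∀ u v, S.Adj u v → ∑ i, uses (C i) u v = 1

/-- Every bridgeless multigraph `K` (with an orientation) which satisfies the condition above has an
orientable cycle double cover with five classes, and if it is an orientation of a simple graph `S`,
the associated digraph of `S` decomposes into directed cycles of length at least three, in five
families none of which uses an edge twice. -/
theorem result (V E : Type) [Fintype V] [DecidableEq V] [Fintype E] [DecidableEq E]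
    (K : OrGraph V E) (hB : K.Bridgeless) (h : ManyCrossing K) :
    FiveClasses K ∧ ∀ S : SimpleGraph V, IsOrientation S K → FiveFamilies S := by
  obtain ⟨m, C, hC, hO⟩ := h
  have h1 : FiveClasses K := N410.DC.oc_gen N410.DC.inh_part K hB (N410.DC.GCl.of_part hC hO)
  exact ⟨h1, fun S hS => cycles_of_classes S K hS h1⟩

end Pool.Agent.Results.MP_781dd6_co.PartitionsEighteen
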